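import Pool.Agent.Helper24.NR.Defs
import Pool.Agent.Helper24.UG.Ker

/-!
# NR, blocks G1 and G2: the linear statistic as a mean of smooth counts; its Lipschitz bound

PROOF of G2. `b ^ 3 q(b) = 4 (b - sin b)` gives `b ^ 3 |q(b) - q(b')| ≤ 1408 |b - b'|` for `b ≥ 8`, `|b - b'| ≤ 2 π`, and
`q(b) ≥ (11/48) / (1 + b ^ 2)`; for `|b| ≤ 8` the trivial bound `2 |b - b'|` is enough.
-/

set_option autoImplicit false
open MeasureTheory Set Filter Topology
open Pool.Agent.Helper57.Zeta Pool.Agent.Helper57.ED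
open Pool.Agent.Helper57.LH hiding NX
open Pool.Agent.Helper54.LG
open Pool.Agent.Helper93.UG (zc sp)
open Pool.Agent.Helper69.UG (XX NX)
open Pool.Agent.Helper24.NR Pool.Agent.Helper24.UG

namespace Pool.Agent.Helper44.NR

lemma XX_pos {T : ℝ} (hT : 1 < T) (j : ℕ) : 0 < XX T (2 ^ j) := by
  unfold XX
  have := Real.log_pos hT
  positivity

lemma arg_eq {T t : ℝ} (hT : 1 < T) (j : ℕ) (ρ : ℂ) :
    qk 0 (2 * Real.pi * ((ρ.im - t) / sp T) / 2 ^ j) = qk 0 (zb (XX T (2 ^ j)) t ρ) := by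
  rw [← qk_neg_right]
  congr 1
  unfold zb XX sp
  have h := Real.log_pos hT
  have hp := Real.pi_pos
  field_simp
  ring

/-- G1 -/
theorem tot_eq {T L t : ℝ} (hT : 1 < T) : Tot T L t = wJ L * ∑ j ∈ Js L, NX (XX T (2 ^ j)) t := by
  unfold Tot
  have h1 : ∀ ρ : ZS, mx ρ * phi L (((ρ : ℂ).im - t) / sp T) =
      wJ L * ∑ j ∈ Js L, mx ρ * qk 0 (zb (XX T (2 ^ j)) t ρ) := by
    intro ρ
    unfold phi
    rw [Finset.sum_congr rfl fun j _ => arg_eq hT j (ρ : ℂ), ← Finset.mul_sum]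
    ring
  simp_rw [h1]
  rw [tsum_mul_left, Summable.tsum_finsetSum fun j _ => summable_q0 (XX_pos hT j) t]
  rfl

lemma q_triv (b b' : ℝ) : |qk 0 b - qk 0 b'| ≤ 2 * |b - b'| := by
  unfold qk
  simp only [zero_mul, Real.cosh_zero, mul_one]
  rw [← mul_sub, ← intervalIntegral.integral_sub
    ((by fun_prop : Continuous fun u : ℝ => (1 - u) ^ 2 * Real.cos (b * u)).intervalIntegrable 0 1)
    ((by fun_prop : Continuous fun u : ℝ => (1 - u) ^ 2 * Real.cos (b' * u)).intervalIntegrable 0 1),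
    abs_mul, abs_of_pos (by norm_num : (0 : ℝ) < 2)]
  refine mul_le_mul_of_nonneg_left ?_ (by norm_num)
  have h := intervalIntegral.norm_integral_le_of_norm_le_const (a := (0 : ℝ)) (b := 1)
    (f := fun u : ℝ => (1 - u) ^ 2 * Real.cos (b * u) - (1 - u) ^ 2 * Real.cos (b' * u)) (C := |b - b'|) fun u hu => by
      rw [uIoc_of_le zero_le_one] at hu
      rw [Real.norm_eq_abs, ← mul_sub, abs_mul]
      have h1 : |(1 - u) ^ 2| ≤ 1 := by
        rw [abs_of_nonneg (sq_nonneg _)]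
        exact pow_le_one₀ (by linarith [hu.2]) (by linarith [hu.1])
      have h2 : |Real.cos (b * u) - Real.cos (b' * u)| ≤ |b - b'| := by
        refine (Real.abs_cos_sub_cos_le _ _).trans ?_
        rw [← sub_mul, abs_mul, abs_of_pos hu.1]
        exact mul_le_of_le_one_right (abs_nonneg _) hu.2
      calc |(1 - u) ^ 2| * |Real.cos (b * u) - Real.cos (b' * u)| ≤ 1 * |b - b'| :=
            mul_le_mul h1 h2 (abs_nonneg _) zero_le_one
        _ = |b - b'| := one_mul _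
  rwa [Real.norm_eq_abs, sub_zero, abs_one, mul_one] at h

lemma q_le {b : ℝ} (hb : 0 < b) : qk 0 b ≤ 8 / b ^ 2 := by
  have h := qk_closed b
  have h1 : |Real.sin b| ≤ b := by
    have := Real.abs_sin_sub_sin_le b 0
    rwa [Real.sin_zero, sub_zero, sub_zero, abs_of_pos hb] at this
  have h2 := neg_abs_le (Real.sin b)
  have h3 : b ^ 3 * qk 0 b ≤ 8 * b := by linarith
  rw [le_div_iff₀ (by positivity)]
  have h4 : b * (qk 0 b * b ^ 2) ≤ b * 8 := by
    calc b * (qk 0 b * b ^ 2) = b ^ 3 * qk 0 b := by ring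
      _ ≤ 8 * b := h3
      _ = b * 8 := by ring
  exact le_of_mul_le_mul_left h4 hb

lemma q_far {b b' : ℝ} (hb : 8 ≤ b) (h : |b - b'| ≤ 2 * Real.pi) : |qk 0 b - qk 0 b'| ≤ 1408 * |b - b'| / b ^ 3 := by
  have hpi := Real.pi_lt_d2
  have h1 := abs_le.1 h
  have hb' : b / 5 ≤ b' := by linarith [h1.2]
  have hb'2 : b' ≤ 2 * b := by linarith [h1.1]
  have hb0 : 0 < b := by linarith
  have hb'0 : 0 < b' := by linarith
  have e1 := qk_closed b
  have e2 := qk_closed b'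
  set d := |b - b'| with hd
  have hd0 : 0 ≤ d := abs_nonneg _
  have h2 : b ^ 3 * (qk 0 b - qk 0 b') = 4 * ((b - b') - (Real.sin b - Real.sin b')) + (b' ^ 3 - b ^ 3) * qk 0 b' := by
    linear_combination e1 - e2
  have h3 : |4 * ((b - b') - (Real.sin b - Real.sin b'))| ≤ 8 * d := by
    rw [abs_mul, abs_of_pos (by norm_num : (0 : ℝ) < 4)]
    have h4 := abs_sub (b - b') (Real.sin b - Real.sin b')
    have h5 := Real.abs_sin_sub_sin_le b b'
    linarith
  have h4 : |b' ^ 3 - b ^ 3| ≤ d * (7 * b ^ 2) := by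
    have e3 : b' ^ 3 - b ^ 3 = -((b - b') * (b ^ 2 + b * b' + b' ^ 2)) := by ring
    have h5 : 0 ≤ b ^ 2 + b * b' + b' ^ 2 := by positivity
    rw [e3, abs_neg, abs_mul, abs_of_nonneg h5]
    refine mul_le_mul_of_nonneg_left ?_ hd0
    have h6 : b * b' ≤ b * (2 * b) := mul_le_mul_of_nonneg_left hb'2 hb0.le
    have h7 : b' ^ 2 ≤ (2 * b) ^ 2 := pow_le_pow_left₀ hb'0.le hb'2 2
    nlinarith
  have h5 : qk 0 b' ≤ 200 / b ^ 2 := by
    refine (q_le hb'0).trans ?_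
    rw [div_le_div_iff₀ (by positivity) (by positivity)]
    have h6 : (b / 5) ^ 2 ≤ b' ^ 2 := pow_le_pow_left₀ (by positivity) hb' 2
    nlinarith
  have h6 : |(b' ^ 3 - b ^ 3) * qk 0 b'| ≤ 1400 * d := by
    rw [abs_mul, abs_of_nonneg (qk_zero_nonneg b')]
    calc |b' ^ 3 - b ^ 3| * qk 0 b' ≤ (d * (7 * b ^ 2)) * (200 / b ^ 2) :=
          mul_le_mul h4 h5 (qk_zero_nonneg b') (by positivity)
      _ = 1400 * d := by
          field_simp
          ring
  have h7 : b ^ 3 * |qk 0 b - qk 0 b'| ≤ 1408 * d := by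
    have h8 : b ^ 3 * |qk 0 b - qk 0 b'| = |b ^ 3 * (qk 0 b - qk 0 b')| := by
      rw [abs_mul, abs_of_pos (by positivity : 0 < b ^ 3)]
    rw [h8, h2]
    exact (abs_add_le _ _).trans (by linarith)
  rw [le_div_iff₀ (by positivity)]
  linarith

lemma q_lip_nonneg {b b' : ℝ} (hb : 0 ≤ b) (h : |b - b'| ≤ 2 * Real.pi) : |qk 0 b - qk 0 b'| ≤ 1000 * |b - b'| * qk 0 b := by
  have hlow := qk_lower' b
  have hd0 : 0 ≤ |b - b'| := abs_nonneg _
  rcases le_or_gt b 8 with h8 | h8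
  · have h1 : (1 : ℝ) / 500 ≤ qk 0 b := by
      refine le_trans ?_ hlow
      rw [div_le_div_iff₀ (by norm_num) (by positivity)]
      nlinarith
    refine (q_triv b b').trans ?_
    have h2 := mul_le_mul_of_nonneg_left h1 (mul_nonneg (by norm_num : (0 : ℝ) ≤ 1000) hd0)
    linarith
  · refine (q_far h8.le h).trans ?_
    have hb0 : 0 < b := by linarith
    have h1 : 1408 / b ^ 3 ≤ 1000 * (11 / 48 / (1 + b ^ 2)) := by
      rw [div_div, mul_div_assoc', div_le_div_iff₀ (by positivity) (by positivity)]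
      nlinarith [mul_pos hb0 hb0, mul_pos (mul_pos hb0 hb0) (sub_pos.2 h8)]
    have h2 : 1408 / b ^ 3 ≤ 1000 * qk 0 b := h1.trans (mul_le_mul_of_nonneg_left hlow (by norm_num))
    calc 1408 * |b - b'| / b ^ 3 = |b - b'| * (1408 / b ^ 3) := by ring
      _ ≤ |b - b'| * (1000 * qk 0 b) := mul_le_mul_of_nonneg_left h2 hd0
      _ = 1000 * |b - b'| * qk 0 b := by ring

lemma q_lip {b b' : ℝ} (h : |b - b'| ≤ 2 * Real.pi) : |qk 0 b - qk 0 b'| ≤ 1000 * |b - b'| * qk 0 b := by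
  rcases le_total 0 b with hb | hb
  · exact q_lip_nonneg hb h
  · have e : |(-b) - (-b')| = |b - b'| := by
      rw [← abs_neg]
      congr 1
      ring
    have h1 := q_lip_nonneg (b := -b) (b' := -b') (by linarith) (by rw [e]; exact h)
    rwa [qk_neg_right, qk_neg_right, e] at h1

lemma NX_lip {X t u : ℝ} (hX : 0 < X) (h : X * |t - u| ≤ 2 * Real.pi) : |NX X t - NX X u| ≤ 1000 * (X * |t - u|) * NX X t := by
  unfold Pool.Agent.Helper69.UG.NX
  have hs1 := summable_q0 hX t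
  have hs2 := summable_q0 hX u
  have hb : ∀ ρ : ZS, |zb X t (ρ : ℂ) - zb X u ρ| = X * |t - u| := by
    intro ρ
    unfold zb
    rw [← mul_sub, abs_mul, abs_of_pos hX]
    congr 2
    ring
  have hpt : ∀ ρ : ZS, ‖mx ρ * qk 0 (zb X t ρ) - mx ρ * qk 0 (zb X u ρ)‖ ≤ 1000 * (X * |t - u|) * (mx ρ * qk 0 (zb X t ρ)) := by
    intro ρ
    rw [Real.norm_eq_abs, ← mul_sub, abs_mul, abs_of_nonneg (mx_nonneg ρ)]
    have h1 := q_lip (b := zb X t (ρ : ℂ)) (b' := zb X u ρ) (by rw [hb]; exact h)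
    rw [hb] at h1
    calc mx ρ * |qk 0 (zb X t ρ) - qk 0 (zb X u ρ)| ≤ mx ρ * (1000 * (X * |t - u|) * qk 0 (zb X t ρ)) :=
          mul_le_mul_of_nonneg_left h1 (mx_nonneg ρ)
      _ = 1000 * (X * |t - u|) * (mx ρ * qk 0 (zb X t ρ)) := by ring
  rw [← hs1.tsum_sub hs2, ← tsum_mul_left, ← Real.norm_eq_abs]
  exact tsum_of_norm_bounded (hs1.mul_left _).hasSum hpt

/-- G2: Lipschitz bound -/
theorem tot_lip : ∃ C : ℝ, 1 ≤ C ∧ ∀ T L t u : ℝ, 3 ≤ T → C ≤ L → |t - u| ≤ sp T →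
    |Tot T L t - Tot T L u| ≤ C * (|t - u| / sp T) * (wJ L * ∑ j ∈ Js L, NX (XX T (2 ^ j)) t / 2 ^ j) := by
  refine ⟨6400, by norm_num, ?_⟩
  intro T L t u hT _ htu
  have hT1 : 1 < T := by linarith
  have hlog := Real.log_pos hT1
  have hpi := Real.pi_pos
  have hpi2 := Real.pi_lt_d2
  have hs : 0 < sp T := by
    unfold sp
    positivity
  have hw : 0 ≤ wJ L := by
    unfold wJ
    positivity
  set r := |t - u| / sp T with hr
  have hr0 : 0 ≤ r := by positivity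
  have hr1 : r ≤ 1 := (div_le_one hs).2 htu
  have hX : ∀ j : ℕ, XX T (2 ^ j) * |t - u| = 2 * Real.pi * r / 2 ^ j := by
    intro j
    rw [hr]
    unfold XX sp
    field_simp
  rw [tot_eq hT1, tot_eq hT1, ← mul_sub, ← Finset.sum_sub_distrib, abs_mul, abs_of_nonneg hw]
  have h1 : ∀ j ∈ Js L, |NX (XX T (2 ^ j)) t - NX (XX T (2 ^ j)) u| ≤ 6400 * r * (NX (XX T (2 ^ j)) t / 2 ^ j) := by
    intro j _
    have h2 : XX T (2 ^ j) * |t - u| ≤ 2 * Real.pi := by
      rw [hX, div_le_iff₀ (by positivity)]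
      have h3 : (1 : ℝ) ≤ 2 ^ j := one_le_pow₀ (by norm_num)
      have h4 : 2 * Real.pi * r ≤ 2 * Real.pi * 1 := mul_le_mul_of_nonneg_left hr1 (by positivity)
      have h5 : 2 * Real.pi * 1 ≤ 2 * Real.pi * 2 ^ j := mul_le_mul_of_nonneg_left h3 (by positivity)
      linarith
    have h3 := NX_lip (XX_pos hT1 j) h2
    rw [hX] at h3
    have hN : 0 ≤ NX (XX T (2 ^ j)) t := tsum_nonneg fun ρ => mul_nonneg (mx_nonneg _) (qk_zero_nonneg _)
    refine h3.trans ?_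
    have h4 : 1000 * (2 * Real.pi * r / 2 ^ j) * NX (XX T (2 ^ j)) t =
        (2000 * Real.pi) * (r * (NX (XX T (2 ^ j)) t / 2 ^ j)) := by ring
    have h5 : 0 ≤ r * (NX (XX T (2 ^ j)) t / 2 ^ j) := by positivity
    rw [h4, mul_assoc 6400]
    exact mul_le_mul_of_nonneg_right (by linarith) h5
  calc wJ L * |∑ j ∈ Js L, (NX (XX T (2 ^ j)) t - NX (XX T (2 ^ j)) u)|
      ≤ wJ L * ∑ j ∈ Js L, 6400 * r * (NX (XX T (2 ^ j)) t / 2 ^ j) :=
        mul_le_mul_of_nonneg_left ((Finset.abs_sum_le_sum_abs _ _).trans (Finset.sum_le_sum h1)) hw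
    _ = 6400 * r * (wJ L * ∑ j ∈ Js L, NX (XX T (2 ^ j)) t / 2 ^ j) := by
        rw [← Finset.mul_sum]
        ring

end Pool.Agent.Helper44.NR
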